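import Pool.Agent.Helper19.CP.Spec

set_option autoImplicit false

/-!
# CP, part FIX: an algebraic number fixed by all automorphisms of `ℂ` over `L` is in `L`
-/

namespace Pool.Agent.Helper82.CP.FIX

open Pool.Agent.Helper19.CP

/-- the part FIX -/
theorem main (hE : S_EXT) : S_FIX := by
  intro L x hx hfix
  have hxN : x ∈ algebraicClosure L ℂ := mem_algebraicClosure_iff.mpr hx
  have key : (⟨x, hxN⟩ : algebraicClosure L ℂ) ∈ (⊥ : IntermediateField L (algebraicClosure L ℂ)) := by
    rw [InfiniteGalois.mem_bot_iff_fixed]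
    intro σ
    obtain ⟨τ, hτ⟩ := hE L (algebraicClosure L ℂ) inferInstance σ
    have h1 : Fixes L τ := by
      intro y hy
      have h2 := hτ (algebraMap L (algebraicClosure L ℂ) ⟨y, hy⟩)
      rw [σ.commutes] at h2
      exact h2
    apply Subtype.ext
    rw [← hτ]
    exact hfix τ h1
  rw [IntermediateField.mem_bot] at key
  obtain ⟨y, hy⟩ := key
  have h2 : ((algebraMap L (algebraicClosure L ℂ) y : algebraicClosure L ℂ) : ℂ) = x := by rw [hy]
  rw [← h2]
  exact y.2

end Pool.Agent.Helper82.CP.FIX
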